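import Mathlib
import Pool.Agent.X325.IG.Pow

/-!
# The inverse Galois problem over `κ(X)`, `κ` finite: equivalent forms

Let `κ` be a finite field (for example `F_p`) and `𝒢` any class of finite groups. For a finite group
`A` let `r A` be the number of primes dividing the order of `A / [A, A]`. The following are
equivalent:

* for all `A` in `𝒢` the power `A ^ (r A + 1)` occurs over `κ(X)`,
* for all `A` in `𝒢` there is a Galois extension of `κ(t)` with group `A` without new constants,
* for *every* extension field `K` of `κ`, every finite Galois extension `L/K` and every infinite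
  sequence `Gal(L/K) = W 0 ← W 1 ← W 2 ← ...` of steps (see `Steps`), the embedding problem of `L/K`
  and the inverse limit of the `W i` has a regular solution over `K(t)`,
* the same embedding problems have proper solutions over all Hilbertian extension fields `K` of `κ`.

For `𝒢` the class of all finite groups and `κ = F_p`, the first condition is the inverse Galois
problem over `F_p(X)`, and `K` runs through all fields of characteristic `p`. For a single perfect
group `G` the first condition says that `G` occurs over `κ(X)`.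
-/

set_option autoImplicit false

open Pool.Agent.TH444.TW (Cls IsInnerPower)

namespace Pool.Agent.Results.MP_7f581e_nt.EquivalentForms

/-- `G` occurs over `F`: it is the Galois group of a finite Galois extension of `F`. -/
def Occurs (F G : Type) [Field F] [Group G] : Prop :=
  ∃ (L : Type) (_ : Field L) (_ : Algebra F L),
    FiniteDimensional F L ∧ IsGalois F L ∧ Nonempty ((L ≃ₐ[F] L) ≃* G)

/-- `G` occurs regularly over `K`: it is the Galois group of a finite Galois extension of `K(t)` in
which `K` is algebraically closed. -/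
def OccursRegularly (K G : Type) [Field K] [Group G] : Prop :=
  ∃ (F : Type) (_ : Field F) (_ : Algebra (RatFunc K) F) (_ : Algebra K F)
    (_ : IsScalarTower K (RatFunc K) F) (_ : FiniteDimensional (RatFunc K) F)
    (_ : IsGalois (RatFunc K) F),
    Nonempty ((F ≃ₐ[RatFunc K] F) ≃* G) ∧
    ∀ y : F, IsAlgebraic K y → y ∈ Set.range (algebraMap K F)

/-- `K` is Hilbertian (in the form used in frozen statement S03429). -/
def Hilbertian (K : Type) [Field K] : Prop :=
  ∀ (f : Polynomial (Polynomial K)), f.Monic → Irreducible f →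
    (f.map (algebraMap (Polynomial K) (FractionRing (Polynomial K)))).Separable →
    ∀ g : Polynomial K, g ≠ 0 →
      ∃ a : K, g.eval a ≠ 0 ∧ Irreducible (f.map (Polynomial.evalRingHom a))

/-- The number `r A` of primes dividing the order of the abelianization of `A`. -/
noncomputable def r (A : Type) [Group A] : ℕ := (Nat.card (Abelianization A)).primeFactors.card

/-- The smallest class of homomorphisms `p : W' → W` of groups which

* contains the class `Cls K` of the file `Pool/Agent/TH444/TW/ClsDef.lean`, in particular all `p`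
  which have a section and a finite abelian kernel,
* contains, for every finite group `A` in `𝒢`, the projections `A ^ k ⋊ W → W`, where `W` acts
  through any homomorphism `W → A ≀ S_k` (`IsInnerPower A p`),
* is closed under composition, and under quotients (if `p ∘ q` is in the class and `q` is
  surjective, then `p` is in the class). -/
inductive Steps (K : Type) [Field K] (𝒢 : ∀ (A : Type) [Group A], Prop) :
    ∀ {W W' : Type} [Group W] [Group W'], (W' →* W) → Prop
  /-- the class `Cls K` -/
  | base {W W' : Type} [Group W] [Group W'] (p : W' →* W) (hp : Cls K p) : Steps K 𝒢 p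
  /-- `A ^ k ⋊ W → W` -/
  | inner {W W' : Type} [Group W] [Group W'] (p : W' →* W) (A : Type) [Group A] [Finite A]
      (hA : 𝒢 A) (hp : IsInnerPower A p) : Steps K 𝒢 p
  /-- compositions -/
  | comp {W W' W'' : Type} [Group W] [Group W'] [Group W''] (p : W' →* W) (q : W'' →* W')
      (hp : Steps K 𝒢 p) (hq : Steps K 𝒢 q) : Steps K 𝒢 (p.comp q)
  /-- quotients -/
  | quot {W W' W'' : Type} [Group W] [Group W'] [Group W''] (p : W' →* W) (q : W'' →* W')
      (hq : Function.Surjective q) (hpq : Steps K 𝒢 (p.comp q)) : Steps K 𝒢 p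

/-- The inverse limit of the sequence `W 0 ← W 1 ← W 2 ← ...`: the group of all sequences `x` with
`p i (x (i + 1)) = x i`. -/
abbrev InvLim {W : ℕ → Type} [∀ i, Group (W i)] (p : ∀ i, W (i + 1) →* W i) : Subgroup (∀ i, W i) :=
  Pool.Agent.TH15.IGP.Lim p

/-- The defining property of the inverse limit. -/
theorem mem_invLim {W : ℕ → Type} [∀ i, Group (W i)] (p : ∀ i, W (i + 1) →* W i)
    (x : ∀ i, W i) : x ∈ InvLim p ↔ ∀ i, p i (x (i + 1)) = x i := Iff.rfl

/-- All components of the isomorphism `γ` of `Gal(F/E)` with the inverse limit are continuous. -/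
def Cont {E F : Type} [Field E] [Field F] [Algebra E F] {W : ℕ → Type} [∀ i, Group (W i)]
    {p : ∀ i, W (i + 1) →* W i} (γ : (F ≃ₐ[E] F) ≃* InvLim p) : Prop :=
  ∀ i, IsOpen {σ : F ≃ₐ[E] F | (γ σ).1 i = 1}

/-- Each `σ` acts on the subfield `L` of `F` as `e₀ (component of γ σ in W 0)`. -/
def ActsOn {E F : Type} [Field E] [Field F] [Algebra E F] (K L : Type) [Field K] [Field L]
    [Algebra K L] [Algebra L F] {W : ℕ → Type} [∀ i, Group (W i)]
    {p : ∀ i, W (i + 1) →* W i} (γ : (F ≃ₐ[E] F) ≃* InvLim p) (e₀ : W 0 ≃* (L ≃ₐ[K] L)) : Prop :=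
  ∀ (σ : F ≃ₐ[E] F) (x : L), σ (algebraMap L F x) = algebraMap L F (e₀ ((γ σ).1 0) x)

/-- The embedding problem over `K` given by the finite Galois extension `L` of `K` and the
projection `x ↦ e₀ (x 0)` of the inverse limit of the `W i` to `Gal(L/K)` has a regular solution
over `K(t)`: there are a Galois extension `F` of `K(t)` containing `L` and an isomorphism `γ` of
`Gal(F/K(t))` with the inverse limit, all of whose components are continuous, such that the action
on `L` is `σ ↦ e₀ (component of γ σ in W 0)` and `L` is algebraically closed in `F`. -/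
def RegularSol (K L : Type) [Field K] [Field L] [Algebra K L] {W : ℕ → Type} [∀ i, Group (W i)]
    (p : ∀ i, W (i + 1) →* W i) (e₀ : W 0 ≃* (L ≃ₐ[K] L)) : Prop :=
  ∃ (F : Type) (_ : Field F) (_ : Algebra (RatFunc K) F) (_ : Algebra L F)
    (_ : Algebra K F) (_ : IsScalarTower K (RatFunc K) F) (_ : IsScalarTower K L F)
    (_ : IsGalois (RatFunc K) F) (γ : (F ≃ₐ[RatFunc K] F) ≃* InvLim p),
    Cont γ ∧ ActsOn K L γ e₀ ∧ ∀ y : F, IsAlgebraic L y → y ∈ Set.range (algebraMap L F)

/-- The same embedding problem has a proper solution over `K`. -/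
def ProperSol (K L : Type) [Field K] [Field L] [Algebra K L] {W : ℕ → Type} [∀ i, Group (W i)]
    (p : ∀ i, W (i + 1) →* W i) (e₀ : W 0 ≃* (L ≃ₐ[K] L)) : Prop :=
  ∃ (F : Type) (_ : Field F) (_ : Algebra K F) (_ : Algebra L F) (_ : IsScalarTower K L F)
    (_ : IsGalois K F) (γ : (F ≃ₐ[K] F) ≃* InvLim p), Cont γ ∧ ActsOn K L γ e₀

/-- All embedding problems over `K` given by a finite Galois extension and an infinite tower of
steps have regular solutions over `K(t)`. -/
def TowersRegular (K : Type) [Field K] (𝒢 : ∀ (A : Type) [Group A], Prop) : Prop :=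
  ∀ (L : Type) [Field L] [Algebra K L] [FiniteDimensional K L] [IsGalois K L]
    (W : ℕ → Type) [∀ i, Group (W i)] (e₀ : W 0 ≃* (L ≃ₐ[K] L))
    (p : ∀ i, W (i + 1) →* W i), (∀ i, Steps K 𝒢 (p i)) → RegularSol K L p e₀

/-- All these embedding problems have proper solutions over `K`. -/
def TowersProper (K : Type) [Field K] (𝒢 : ∀ (A : Type) [Group A], Prop) : Prop :=
  ∀ (L : Type) [Field L] [Algebra K L] [FiniteDimensional K L] [IsGalois K L]
    (W : ℕ → Type) [∀ i, Group (W i)] (e₀ : W 0 ≃* (L ≃ₐ[K] L))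
    (p : ∀ i, W (i + 1) →* W i), (∀ i, Steps K 𝒢 (p i)) → ProperSol K L p e₀

/-- For all finite groups `A` in `𝒢` the power `A ^ (r A + 1)` occurs over `κ(X)`. -/
def PowersOccur (κ : Type) [Field κ] (𝒢 : ∀ (A : Type) [Group A], Prop) : Prop :=
  ∀ (A : Type) [Group A] [Finite A], 𝒢 A → Occurs (RatFunc κ) (Fin (r A + 1) → A)

/-- All finite groups `A` in `𝒢` occur regularly over `κ`. -/
def AllRegular (κ : Type) [Field κ] (𝒢 : ∀ (A : Type) [Group A], Prop) : Prop :=
  ∀ (A : Type) [Group A] [Finite A], 𝒢 A → OccursRegularly κ A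

/-- Regular solutions over `K(t)` for all extension fields `K` of `κ`. -/
def RegularAbove (κ : Type) [Field κ] (𝒢 : ∀ (A : Type) [Group A], Prop) : Prop :=
  ∀ (K : Type) [Field K] [Algebra κ K], TowersRegular K 𝒢

/-- Proper solutions over `K` for all Hilbertian extension fields `K` of `κ`. -/
def ProperAbove (κ : Type) [Field κ] (𝒢 : ∀ (A : Type) [Group A], Prop) : Prop :=
  ∀ (K : Type) [Field K] [Algebra κ K], Hilbertian K → TowersProper K 𝒢

/-- The class of all groups. -/
def allGroups (A : Type) [Group A] : Prop := True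

/-- The class of the groups isomorphic to `G`. -/
def isoTo (G : Type) [Group G] (A : Type) [Group A] : Prop := Nonempty (A ≃* G)

theorem cls_of {K : Type} [Field K] {𝒢 : ∀ (A : Type) [Group A], Prop}
    (h : ∀ (A : Type) [Group A] [Finite A], 𝒢 A → Pool.Agent.TH444.TW.RegularOver K A)
    {W W' : Type} [Group W] [Group W'] {p : W' →* W} (hp : Steps K 𝒢 p) : Cls K p := by
  induction hp with
  | base p hp => exact hp
  | inner p A hA hp => exact Cls.inner p A (h A hA) hp
  | comp p q _ _ h1 h2 => exact Cls.comp p q h1 h2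
  | quot p q hq _ h1 => exact Cls.quot p q hq h1

theorem regular_all {κ K : Type} [Field κ] [Field K] [Algebra κ K]
    {𝒢 : ∀ (A : Type) [Group A], Prop}
    (h : ∀ (A : Type) [Group A] [Finite A], 𝒢 A → OccursRegularly κ A) : TowersRegular K 𝒢 := by
  intro L _ _ _ _ W _ e₀ p hp
  exact Pool.Agent.TH444.TW.cls_regular K L W p
    (fun i => cls_of (fun A _ _ hA => Pool.Agent.X325.IG.regular_up (h A hA)) (hp i)) e₀

theorem proper_all {κ K : Type} [Field κ] [Field K] [Algebra κ K] (hK : Hilbertian K)
    {𝒢 : ∀ (A : Type) [Group A], Prop}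
    (h : ∀ (A : Type) [Group A] [Finite A], 𝒢 A → OccursRegularly κ A) : TowersProper K 𝒢 := by
  intro L _ _ _ _ W _ e₀ p hp
  exact Pool.Agent.TH444.TW.cls_hilb hK W p
    (fun i => cls_of (fun A _ _ hA => Pool.Agent.X325.IG.regular_up (h A hA)) (hp i)) L e₀

theorem steps_pp {K A : Type} [Field K] [Group A] [Finite A] {𝒢 : ∀ (A : Type) [Group A], Prop}
    (hA : 𝒢 A) (n : ℕ) (i : ℕ) : Steps K 𝒢 (Pool.Agent.X325.IG.pp A n i) := by
  cases i with
  | zero => exact Steps.inner _ A hA (Pool.Agent.X325.IG.inner_zero A n)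
  | succ i => exact Steps.base _ (Pool.Agent.X325.IG.cls_id K)

theorem reg_of_towers {κ A : Type} [Field κ] [Group A] [Finite A]
    {𝒢 : ∀ (A : Type) [Group A], Prop} (h : TowersRegular κ 𝒢) (hA : 𝒢 A) :
    OccursRegularly κ A := by
  obtain ⟨F, i1, i2, i3, i4, i5, i6, i7, γ, -, -, hreg⟩ :=
    h κ (Pool.Agent.X325.IG.PT A 1) (Pool.Agent.X325.IG.e0 A 1 κ) (Pool.Agent.X325.IG.pp A 1)
      (steps_pp hA 1)
  obtain ⟨e⟩ := Pool.Agent.X325.IG.lim_equiv A 1
  have hf : Finite (F ≃ₐ[RatFunc κ] F) := Finite.of_equiv _ (γ.trans e).symm.toEquiv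
  have h34 : i4 = i3 := Algebra.algebra_ext i4 i3 (fun x =>
    @IsScalarTower.algebraMap_apply κ κ F _ _ _ _ i3 i4 i6 x)
  subst h34
  exact ⟨F, i1, i2, i4, i5, IsGalois.finiteDimensional_of_finite _ _, i7,
    ⟨(γ.trans e).trans (MulEquiv.funUnique (Fin 1) A)⟩, hreg⟩

theorem occurs_of_towers {K A : Type} [Field K] [Group A] [Finite A]
    {𝒢 : ∀ (A : Type) [Group A], Prop} (h : TowersProper K 𝒢) (hA : 𝒢 A) (n : ℕ) :
    Occurs K (Fin n → A) := by
  obtain ⟨F, i1, i2, i3, i4, i5, γ, -, -⟩ :=
    h K (Pool.Agent.X325.IG.PT A n) (Pool.Agent.X325.IG.e0 A n K) (Pool.Agent.X325.IG.pp A n)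
      (steps_pp hA n)
  obtain ⟨e⟩ := Pool.Agent.X325.IG.lim_equiv A n
  have h23 : i3 = i2 := Algebra.algebra_ext i3 i2 (fun x =>
    (@IsScalarTower.algebraMap_apply K K F _ _ _ _ i3 i2 i4 x).symm)
  subst h23
  have hf : Finite (F ≃ₐ[K] F) := Finite.of_equiv _ (γ.trans e).symm.toEquiv
  exact ⟨F, i1, i3, IsGalois.finiteDimensional_of_finite _ _, i5, ⟨γ.trans e⟩⟩

theorem main (κ : Type) [Field κ] [Finite κ] (𝒢 : ∀ (A : Type) [Group A], Prop) :
    List.TFAE [PowersOccur κ 𝒢, AllRegular κ 𝒢, RegularAbove κ 𝒢, ProperAbove κ 𝒢] := by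
  tfae_have 1 → 2 := fun h A _ _ hA =>
    Pool.Agent.Y140.IG.regular_of_power κ A _ (Nat.lt_succ_self _) (h A hA)
  tfae_have 2 → 3 := fun h K _ _ => regular_all h
  tfae_have 3 → 2 := fun h A _ _ hA => reg_of_towers (h κ) hA
  tfae_have 2 → 4 := fun h K _ _ hK => proper_all hK h
  tfae_have 4 → 1 := fun h A _ _ hA =>
    occurs_of_towers (h (RatFunc κ) (Pool.Agent.Y140.IG.hilb_ratFunc κ)) hA _
  tfae_finish

/-- Every finite group occurs over `F_p(X)`: the question for the prime `p`. -/
def IGP (p : ℕ) [Fact p.Prime] : Prop :=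
  ∀ (A : Type) [Group A] [Finite A], Occurs (RatFunc (ZMod p)) A

/-- The towers with steps from all finite groups, over all fields of characteristic `p`. -/
def RegularChar (p : ℕ) : Prop :=
  ∀ (K : Type) [Field K] [CharP K p], TowersRegular K allGroups

/-- The towers with steps from all finite groups, over all Hilbertian fields of characteristic
`p`. -/
def ProperChar (p : ℕ) : Prop :=
  ∀ (K : Type) [Field K] [CharP K p], Hilbertian K → TowersProper K allGroups

theorem main_char (p : ℕ) [Fact p.Prime] : List.TFAE [IGP p, RegularChar p, ProperChar p] := by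
  have H2 : PowersOccur (ZMod p) allGroups ↔ RegularAbove (ZMod p) allGroups :=
    (main (ZMod p) allGroups).out 0 2
  have H3 : PowersOccur (ZMod p) allGroups ↔ ProperAbove (ZMod p) allGroups :=
    (main (ZMod p) allGroups).out 0 3
  have hp1 : ∀ (A : Type) [Group A], (Fin 1 → A) ≃* A := fun A _ => MulEquiv.funUnique (Fin 1) A
  tfae_have 1 → 2 := fun h K _ _ => by
    let _ : Algebra (ZMod p) K := ZMod.algebra K p
    exact H2.1 (fun A _ _ _ => h _) K
  tfae_have 1 → 3 := fun h K _ _ => by
    let _ : Algebra (ZMod p) K := ZMod.algebra K p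
    exact H3.1 (fun A _ _ _ => h _) K
  tfae_have 2 → 1 := fun h A _ _ =>
    Pool.Agent.Y140.IG.occurs_of_regular' (ZMod p) (reg_of_towers (h (ZMod p)) (A := A) trivial)
  tfae_have 3 → 1 := fun h A _ _ => by
    have : CharP (RatFunc (ZMod p)) p :=
      charP_of_injective_algebraMap (algebraMap (ZMod p) (RatFunc (ZMod p))).injective p
    exact Pool.Agent.Y140.IG.Occurs.congr (hp1 A) (occurs_of_towers
      (h (RatFunc (ZMod p)) (Pool.Agent.Y140.IG.hilb_ratFunc (ZMod p))) trivial 1)
  tfae_finish

theorem main_perfect (κ : Type) [Field κ] [Finite κ] (G : Type) [Group G] [Finite G]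
    (hG : commutator G = ⊤) (hocc : Occurs (RatFunc κ) G) :
    RegularAbove κ (isoTo G) ∧ ProperAbove κ (isoTo G) := by
  have hab : Nat.card (Abelianization G) = 1 := by
    have h1 : Subsingleton (Abelianization G) := by
      rw [show Abelianization G = (G ⧸ commutator G) from rfl, hG]
      exact QuotientGroup.subsingleton_quotient_top
    exact Nat.card_unique
  have hreg : OccursRegularly κ G := by
    refine Pool.Agent.Y140.IG.regular_of_power κ G 1 ?_ ?_
    · rw [hab]
      simp
    · exact Pool.Agent.Y140.IG.Occurs.congr (MulEquiv.funUnique (Fin 1) G).symm hocc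
  have hall : ∀ (A : Type) [Group A] [Finite A], isoTo G A → OccursRegularly κ A := by
    rintro A _ _ ⟨e⟩
    exact Pool.Agent.Y140.IG.regular_congr e.symm hreg
  exact ⟨fun K _ _ => regular_all hall, fun K _ _ hK => proper_all hK hall⟩

end Pool.Agent.Results.MP_7f581e_nt.EquivalentForms

open Pool.Agent.Results.MP_7f581e_nt.EquivalentForms in
theorem Pool.Agent.Results.MP_7f581e_nt.EquivalentForms.result :
    -- any class of finite groups
    (∀ (κ : Type) [Field κ] [Finite κ] (𝒢 : ∀ (A : Type) [Group A], Prop),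
      List.TFAE [PowersOccur κ 𝒢, AllRegular κ 𝒢, RegularAbove κ 𝒢, ProperAbove κ 𝒢]) ∧
    -- all finite groups
    (∀ (p : ℕ) [Fact p.Prime], List.TFAE [IGP p, RegularChar p, ProperChar p]) ∧
    -- one perfect group
    (∀ (κ : Type) [Field κ] [Finite κ] (G : Type) [Group G] [Finite G], commutator G = ⊤ →
      Occurs (RatFunc κ) G → RegularAbove κ (isoTo G) ∧ ProperAbove κ (isoTo G)) :=
  ⟨fun κ _ _ 𝒢 => main κ 𝒢, fun p _ => main_char p, fun κ _ _ G _ _ hG h =>
    main_perfect κ G hG h⟩
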