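import Mathlib
import Pool.Agent.X325.PA.Fin

/-!
# The inverse Galois problem over extensions of `K(t)` with perfect group, `char K ≠ 0, 2`

Let `p` be an odd prime and `P 0, P 1, ...` nontrivial finite perfect groups (for example all equal
to `A_5`). There are arbitrarily large `n 0 < n 1 < ...` such that for every field `K` of
characteristic `p` there is a Galois extension `F/K(t)` with group the product of the *perfect*
groups `P i ≀ A_(n i)`, without new constants, such that over `F` the regular inverse Galois problem
has a positive answer: every finite group, and even every product of countably many finite groups, is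
the Galois group of an extension `F'/F` in which `K` is algebraically closed. In particular `F/K(t)`
contains no finite solvable Galois subextension other than `K(t)`. For `K = F_p` this is a Galois
extension `F` of `F_p(X)`. If `K` is Hilbertian, there is also such an extension `F` of `K`.
-/

set_option autoImplicit false

namespace Pool.Agent.Results.MP_7f581e_nt.PerfectBaseField

/-- The alternating wreath product `P ≀ A_n`: the group of the elements of `P^n ⋊ S_n` over even
permutations. -/
def AltWreath (P : Type) [Group P] (n : ℕ) : Type :=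
  (Equiv.Perm.sign.comp (SemidirectProduct.rightHom :
    (Fin n → P) ⋊[mulAutArrow] Equiv.Perm (Fin n) →* Equiv.Perm (Fin n))).ker

/-- Its group structure. -/
instance instGroup (P : Type) [Group P] (n : ℕ) : Group (AltWreath P n) :=
  inferInstanceAs (Group (Equiv.Perm.sign.comp (SemidirectProduct.rightHom :
    (Fin n → P) ⋊[mulAutArrow] Equiv.Perm (Fin n) →* Equiv.Perm (Fin n))).ker)

/-- `F/k` is Galois, and there is an isomorphism of `Gal(F/k)` with the product of the groups `G i`
whose components have open kernels. -/
def GaloisProd (k F : Type) [Field k] [Field F] [Algebra k F] {ι : Type} (G : ι → Type)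
    [∀ i, Group (G i)] : Prop :=
  IsGalois k F ∧ ∃ e : (F ≃ₐ[k] F) ≃* ∀ i, G i, ∀ i, IsOpen {σ : F ≃ₐ[k] F | e σ i = 1}

/-- `k` is the only finite Galois subextension of `F/k` with solvable group. -/
def NoSolvable (k F : Type) [Field k] [Field F] [Algebra k F] : Prop :=
  ∀ E : IntermediateField k F, FiniteDimensional k E → IsGalois k E →
    Group.IsSolvable (E ≃ₐ[k] E) → E = ⊥

/-- `K` is algebraically closed in `F`. -/
def AlgClosedIn (K F : Type) [Field K] [Field F] [Algebra K F] : Prop :=
  ∀ y : F, IsAlgebraic K y → y ∈ Set.range (algebraMap K F)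

/-- `K` is Hilbertian (in the form used in frozen statement S03429). -/
def Hilbertian (K : Type) [Field K] : Prop :=
  ∀ (f : Polynomial (Polynomial K)), f.Monic → Irreducible f →
    (f.map (algebraMap (Polynomial K) (FractionRing (Polynomial K)))).Separable →
    ∀ g : Polynomial K, g ≠ 0 →
      ∃ a : K, g.eval a ≠ 0 ∧ Irreducible (f.map (Polynomial.evalRingHom a))

/-- There is a Galois extension `F/K(t)` with group the product of the groups `H i`, without solvable
subextensions and without new constants, such that every product of countably many finite groups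
is the group of a Galois extension `F'/F` without new constants. -/
def RegularBase (K : Type) [Field K] (H : ℕ → Type) [∀ i, Group (H i)] : Prop :=
  ∃ (F : Type) (_ : Field F) (_ : Algebra (RatFunc K) F) (_ : Algebra K F)
    (_ : IsScalarTower K (RatFunc K) F),
    GaloisProd (RatFunc K) F H ∧ NoSolvable (RatFunc K) F ∧ AlgClosedIn K F ∧
    ∀ (ι : Type) [Countable ι] (G : ι → Type) [∀ i, Group (G i)] [∀ i, Finite (G i)],
      ∃ (F' : Type) (_ : Field F') (_ : Algebra F F') (_ : Algebra K F') (_ : IsScalarTower K F F'),
        GaloisProd F F' G ∧ AlgClosedIn K F'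

/-- There is a Galois extension `F/K` with group the product of the groups `H i`, without solvable
subextensions, such that every product of countably many finite groups is the group of a Galois
extension `F'/F`. -/
def ProperBase (K : Type) [Field K] (H : ℕ → Type) [∀ i, Group (H i)] : Prop :=
  ∃ (F : Type) (_ : Field F) (_ : Algebra K F), GaloisProd K F H ∧ NoSolvable K F ∧
    ∀ (ι : Type) [Countable ι] (G : ι → Type) [∀ i, Group (G i)] [∀ i, Finite (G i)],
      ∃ (F' : Type) (_ : Field F') (_ : Algebra F F'), GaloisProd F F' G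

theorem result (p : ℕ) [Fact p.Prime] (hp : p ≠ 2) (P : ℕ → Type) [∀ i, Group (P i)]
    [∀ i, Finite (P i)] [∀ i, Nontrivial (P i)] (hP : ∀ i, commutator (P i) = ⊤) (b : ℕ) :
    ∃ n : ℕ → ℕ, StrictMono n ∧ (∀ i, b ≤ n i) ∧
      (∀ i, commutator (AltWreath (P i) (n i)) = ⊤) ∧
      ∀ (K : Type) [Field K] [CharP K p],
        RegularBase K (fun i => AltWreath (P i) (n i)) ∧
        (Hilbertian K → ProperBase K (fun i => AltWreath (P i) (n i))) := by
  obtain ⟨n, h1, h2, h3, h4⟩ := Pool.Agent.X325.PA.main p hp P hP b
  refine ⟨n, h1, h2, h3, fun K _ _ => ⟨?_, fun hK => ?_⟩⟩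
  · obtain ⟨F, i1, i2, i3, i4, h5, e, h6, h7, h8, h9⟩ := (h4 K).1
    refine ⟨F, i1, i2, i3, i4, ⟨h5, e, h6⟩, h7, h8, fun ι _ G _ _ => ?_⟩
    obtain ⟨F', j1, j2, j3, j4, g5, e', g6, g7⟩ := h9 ι G
    exact ⟨F', j1, j2, j3, j4, ⟨g5, e', g6⟩, g7⟩
  · obtain ⟨F, i1, i2, h5, e, h6, h7, h9⟩ := (h4 K).2 hK
    refine ⟨F, i1, i2, ⟨h5, e, h6⟩, h7, fun ι _ G _ _ => ?_⟩
    obtain ⟨F', j1, j2, g5, e', g6⟩ := h9 ι G
    exact ⟨F', j1, j2, ⟨g5, e', g6⟩⟩

end Pool.Agent.Results.MP_7f581e_nt.PerfectBaseField
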